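import Pool.Agent.J4.H9.SC.Defs

set_option autoImplicit false

namespace Pool.Agent.J4.H9.SC
open NumberField Module
open Pool.Agent.K4H33.SK (Qbar GQ Fixes IsTorsionOrder IsZeta AbelianRoot)
open Pool.Agent.K4H33.SK.Stmt (Sub Ideals Cop IsArtin nrm cnt)
open Pool.Agent.J4.H17.SR (AbelianOver StarkUpTo localDegree NotAbove)

lemma IsComplexCubic.localDegree {ι : Qbar →+* ℂ} {K : Sub} (h : IsComplexCubic ι K) :
    localDegree ι K = 2 := by
  obtain ⟨x, hx, h1⟩ := h.complex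
  unfold Pool.Agent.J4.H17.SR.localDegree
  rw [if_neg (fun h2 => h1 (h2 x hx))]

/-- the embeddings of a complex cubic field -/
lemma IsComplexCubic.notAbove {ι : Qbar →+* ℂ} {K : Sub} [NumberField K] (h : IsComplexCubic ι K)
    (w : Qbar →+* ℂ) : NotAbove ι K w ↔ ∀ x ∈ K, (w x).im = 0 := by
  classical
  constructor
  · rintro ⟨⟨a, ha, ha'⟩, b, hb, hb'⟩
    by_contra hcon
    push Not at hcon
    obtain ⟨c, hc, hc'⟩ := hcon
    obtain ⟨d, hd, hd'⟩ := h.complex
    set r : (Qbar →+* ℂ) → (K →+* ℂ) := fun f => f.comp (algebraMap K Qbar) with hr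
    set cj : ℂ →+* ℂ := starRingEnd ℂ with hcj
    have hval : ∀ (f : Qbar →+* ℂ) (x : Qbar) (hx : x ∈ K), r f ⟨x, hx⟩ = f x := fun f x hx => rfl
    have hne : ∀ (f g : Qbar →+* ℂ) (x : Qbar), x ∈ K → f x ≠ g x → r f ≠ r g := by
      intro f g x hx hfg h0
      apply hfg
      rw [← hval f x hx, ← hval g x hx, h0]
    have hcard : Fintype.card (K →+* ℂ) = 3 := by
      rw [NumberField.Embeddings.card K ℂ, h.deg]
    have him : ∀ z : ℂ, z.im ≠ 0 → z ≠ cj z := by
      intro z hz h0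
      apply hz
      exact Complex.conj_eq_iff_im.1 h0.symm
    have e1 : r w ≠ r ι := hne _ _ a ha ha'
    have e2 : r w ≠ r (cj.comp ι) := hne _ _ b hb hb'
    have e3 : r w ≠ r (cj.comp w) := hne _ _ c hc (him _ hc')
    have e4 : r ι ≠ r (cj.comp ι) := hne _ _ d hd (him _ hd')
    have e5 : r (cj.comp w) ≠ r ι := by
      refine hne _ _ b hb fun h0 => hb' ?_
      have h0' : cj (w b) = ι b := h0
      rw [← h0']
      exact (Complex.conj_conj _).symm
    have e6 : r (cj.comp w) ≠ r (cj.comp ι) := by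
      refine hne _ _ a ha fun h0 => ha' ?_
      exact (starRingEnd ℂ).injective h0
    have h4 : ({r w, r ι, r (cj.comp ι), r (cj.comp w)} : Finset (K →+* ℂ)).card = 4 := by
      rw [Finset.card_insert_of_notMem, Finset.card_insert_of_notMem, Finset.card_insert_of_notMem,
        Finset.card_singleton]
      · simpa using e6.symm
      · simp only [Finset.mem_insert, Finset.mem_singleton, not_or]
        exact ⟨e4, e5.symm⟩
      · simp only [Finset.mem_insert, Finset.mem_singleton, not_or]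
        exact ⟨e1, e2, e3⟩
    have h5 := Finset.card_le_univ ({r w, r ι, r (cj.comp ι), r (cj.comp w)} : Finset (K →+* ℂ))
    rw [h4, hcard] at h5
    omega
  · intro hw
    obtain ⟨d, hd, hd'⟩ := h.complex
    refine ⟨⟨d, hd, fun h0 => hd' (h0 ▸ hw d hd)⟩, d, hd, fun h0 => hd' ?_⟩
    have h1 := hw d hd
    rw [h0, Complex.conj_im] at h1
    linarith

lemma starkCubic_iff {n : ℕ} {ι : Qbar →+* ℂ} {K L : Sub} [NumberField K] (h : IsComplexCubic ι K)
    {𝔣 : Ideals K} {art : Ideals K → GQ} :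
    StarkCubicUpTo n ι K L 𝔣 art ↔ StarkUpTo n ι K L 𝔣 art := by
  have h1 : ∀ u : Qbar, Real.log (‖ι u‖ ^ 2) = (localDegree ι K : ℝ) * Real.log ‖ι u‖ := by
    intro u
    rw [h.localDegree, Real.log_pow]
  constructor
  · intro h2 W hW
    obtain ⟨Z, ε, a1, a2, a3, a4, a5, a6, a7⟩ := h2 W hW
    refine ⟨Z, ε, a1, a2, fun σ hσ => ?_, a3, a4, fun w hw => a5 w ((h.notAbove w).1 hw), a7⟩
    obtain ⟨b1, b2, b3⟩ := a6 σ hσ
    exact ⟨b1, b2, by rw [← h1]; exact b3⟩
  · intro h2 W hW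
    obtain ⟨Z, ε, a1, a2, a3, a4, a5, a6, a7⟩ := h2 W hW
    refine ⟨Z, ε, a1, a2, a4, a5, fun w hw => a6 w ((h.notAbove w).2 hw), fun σ hσ => ?_, a7⟩
    obtain ⟨b1, b2, b3⟩ := a3 σ hσ
    exact ⟨b1, b2, by rw [h1]; exact b3⟩

end Pool.Agent.J4.H9.SC
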