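import Pool.Agent.J4.H17.SR.Defs

/-! Narrow ray class fields of complex cubic fields and Stark's conjecture for them. -/

set_option autoImplicit false

namespace Pool.Agent.J4.H9.SC
open NumberField Module
open Pool.Agent.K4H33.SK (Qbar GQ Fixes IsTorsionOrder IsZeta AbelianRoot)
open Pool.Agent.K4H33.SK.Stmt (Sub Ideals Cop IsArtin nrm cnt)
open Pool.Agent.J4.H17.SR (AbelianOver IsPrimeIdeal DegreePrimeTo CyclicSylow TwoExtension)

/-- `K` is a complex cubic field, and `ι` gives its complex place. -/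
structure IsComplexCubic (ι : Qbar →+* ℂ) (K : Sub) : Prop where
  deg : finrank ℚ K = 3
  complex : ∃ x ∈ K, (ι x).im ≠ 0

/-- A nonzero ideal other than the ring of integers. -/
def IsModulus (K : Sub) (𝔣 : Ideals K) : Prop := 𝔣 ≠ ⊥ ∧ 𝔣 ≠ ⊤

/-- The element is positive at the real place of `K`. -/
def IsPositive (K : Sub) (x : Qbar) : Prop :=
  ∀ w : Qbar →+* ℂ, (∀ y ∈ K, (w y).im = 0) → 0 < (w x).re

/-- The ideal `𝔞` has a generator which is congruent to one modulo `𝔣` and positive at the real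
place. -/
def InRay (K : Sub) (𝔣 𝔞 : Ideals K) : Prop :=
  ∃ α : 𝓞 K, α - 1 ∈ 𝔣 ∧ IsPositive K α ∧ 𝔞 = Ideal.span {α}

/-- `H 𝔣` is the narrow ray class field `K(𝔣)` for all `𝔣`, and `art` gives (lifts to `Qbar` of) the
Artin symbols: the Artin map of the ideals prime to `𝔣` is onto the Galois group of the finite abelian
extension `H 𝔣` of `K`, its kernel consists of the ideals with a generator congruent to one modulo `𝔣` and
positive at the real place; `K(𝔤)` is contained in `K(𝔣)` if `𝔤` divides `𝔣`. -/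
structure RayClassFields (K : Sub) [NumberField K] (H : Ideals K → Sub) (art : Ideals K → GQ) :
    Prop where
  le : ∀ 𝔣, IsModulus K 𝔣 → K ≤ H 𝔣
  finite : ∀ 𝔣, IsModulus K 𝔣 → FiniteDimensional ℚ (H 𝔣)
  comm : ∀ 𝔣, IsModulus K 𝔣 → AbelianOver K (H 𝔣)
  symbol : ∀ 𝔣, IsModulus K 𝔣 → IsArtin K (H 𝔣) 𝔣 art
  onto : ∀ 𝔣, IsModulus K 𝔣 → ∀ σ : GQ, Fixes K σ →
    ∃ 𝔞 : Ideals K, Cop K 𝔞 𝔣 ∧ ∀ x ∈ H 𝔣, art 𝔞 x = σ x
  kernel : ∀ 𝔣, IsModulus K 𝔣 → ∀ 𝔞 : Ideals K, Cop K 𝔞 𝔣 →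
    ((∀ x ∈ H 𝔣, art 𝔞 x = x) ↔ InRay K 𝔣 𝔞)
  mono : ∀ 𝔣 𝔤, IsModulus K 𝔣 → IsModulus K 𝔤 → 𝔣 ≤ 𝔤 → H 𝔤 ≤ H 𝔣

/-- The statement Q1 for the abelian extension `L` of `K`, the set `S` of the infinite places and the
primes dividing `𝔣`, and the complex place given by `ι`, up to the exponent `n` (`n = 1` is the full
statement): if `e` is the number of roots of unity of `L`, there is a unit `u` of `L` of absolute value
one at the real places (those above the real place of `K`) with `log |ρ u|_v = - n e ζ'(ρ, 0)` (and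
`ζ(ρ, 0) = 0`) for the partial zeta functions of all automorphisms `ρ` over `K`, such that `L(u^(1/e))` is
abelian over `K`. -/
def StarkCubicUpTo (n : ℕ) (ι : Qbar →+* ℂ) (K L : Sub) [NumberField K] (𝔣 : Ideals K)
    (art : Ideals K → GQ) : Prop :=
  ∀ e : ℕ, IsTorsionOrder L e → ∃ (Z : GQ → ℂ → ℂ) (u : Qbar), u ∈ L ∧ u ≠ 0 ∧
    IsIntegral ℤ u ∧ IsIntegral ℤ u⁻¹ ∧
    (∀ w : Qbar →+* ℂ, (∀ x ∈ K, (w x).im = 0) → ‖w u‖ = 1) ∧
    (∀ ρ : GQ, Fixes K ρ → IsZeta (cnt K L 𝔣 art ρ) (Z ρ) ∧ Z ρ 0 = 0 ∧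
      ((Real.log (‖ι (ρ u)‖ ^ 2) : ℝ) : ℂ) = -((n * e : ℕ) : ℂ) * deriv (Z ρ) 0) ∧
    AbelianRoot K e u

/-- `𝔣` is divisible by `N` different primes which do not divide `𝔟`. -/
def ManyPrimes (K : Sub) (𝔟 : Ideals K) (N : ℕ) (𝔣 : Ideals K) : Prop :=
  ∃ s : Finset (Ideals K), s.card = N ∧ ∀ 𝔭 ∈ s, IsPrimeIdeal K 𝔭 ∧ ¬ 𝔟 ≤ 𝔭 ∧ 𝔣 ≤ 𝔭

/-- The primary parts of Q1 for the abelian extension `H` of `K` and `𝔣`: for every prime `ℓ` and
every intermediate field `L` of degree prime to `ℓ` below `H` whose Galois group over `K` is a product of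
an `ℓ`-group and a cyclic group, Q1 holds for `L` up to an exponent prime to `ℓ`. -/
def PrimaryStark (ι : Qbar →+* ℂ) (K H : Sub) [NumberField K] (𝔣 : Ideals K)
    (art : Ideals K → GQ) : Prop :=
  ∀ ℓ : ℕ, ℓ.Prime → ∀ L : Sub, K ≤ L → L ≤ H → DegreePrimeTo ℓ L H →
    (∀ q : ℕ, q.Prime → q ≠ ℓ → CyclicSylow q K L) →
      ∃ n : ℕ, ¬ ℓ ∣ n ∧ StarkCubicUpTo n ι K L 𝔣 art

/-- Q1 for all `2`-extensions of `K` in `H`, up to odd exponents. -/
def TwoStark (ι : Qbar →+* ℂ) (K H : Sub) [NumberField K] (𝔣 : Ideals K)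
    (art : Ideals K → GQ) : Prop :=
  ∀ L : Sub, K ≤ L → L ≤ H → TwoExtension K L →
    ∃ n : ℕ, ¬ 2 ∣ n ∧ StarkCubicUpTo n ι K L 𝔣 art

/-- The zeta function of `K` without the Euler factors at the primes dividing `𝔣` has at least a double
zero at `0`, for every `𝔣` (classical: the unit rank of a complex cubic field is one, and at least one
Euler factor is removed). -/
def DoubleZero (K : Sub) [NumberField K] (art : Ideals K → GQ) : Prop :=
  ∀ 𝔣, IsModulus K 𝔣 → ∃ Z, IsZeta (cnt K K 𝔣 art 1) Z ∧ Z 0 = 0 ∧ deriv Z 0 = 0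

/-- The partial zeta functions of the ray class fields have a continuation which is holomorphic away
from `1` (Hecke). -/
def Continuation (K : Sub) [NumberField K] (H : Ideals K → Sub) (art : Ideals K → GQ) : Prop :=
  ∀ 𝔣, IsModulus K 𝔣 → ∀ ρ : GQ, Fixes K ρ → ∃ Z, IsZeta (cnt K (H 𝔣) 𝔣 art ρ) Z

end Pool.Agent.J4.H9.SC
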