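import Pool.Agent.J4.H9.SC.Bridge

set_option autoImplicit false

namespace Pool.Agent.J4.H9.SC
open NumberField Module
open Pool.Agent.K4H33.SK (Qbar GQ Fixes IsTorsionOrder IsZeta AbelianRoot)
open Pool.Agent.K4H33.SK.Stmt (Sub Ideals Cop IsArtin nrm cnt prd)
open Pool.Agent.J4.H17.SR (AbelianOver StarkUpTo localDegree NotAbove DegreePrimeTo CyclicSylow
  TwoExtension IsPrimeIdeal)

/-- every subgroup of the automorphisms containing the Frobenius automorphisms of all primes outside the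
modulus and the automorphisms of `H` contains all automorphisms over `K` -/
lemma exists_prime_notMem {K H : Sub} [NumberField K] {𝔣 𝔟 : Ideals K} (h𝔣 : IsModulus K 𝔣)
    {art : Ideals K → GQ} (hart : IsArtin K H 𝔣 art)
    (honto : ∀ σ : GQ, Fixes K σ → ∃ 𝔞 : Ideals K, Cop K 𝔞 𝔣 ∧ Cop K 𝔞 𝔟 ∧
      ∀ x ∈ H, art 𝔞 x = σ x)
    (U : Subgroup GQ) (hU : ∀ σ : GQ, Fixes H σ → σ ∈ U) (hne : ∃ σ : GQ, Fixes K σ ∧ σ ∉ U) :
    ∃ 𝔮 : Ideals K, IsPrimeIdeal K 𝔮 ∧ Cop K 𝔮 𝔣 ∧ Cop K 𝔮 𝔟 ∧ art 𝔮 ∉ U := by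
  by_contra hcon
  push Not at hcon
  obtain ⟨σ, hσ, hσU⟩ := hne
  obtain ⟨𝔞, h𝔞, h𝔞𝔟, h1⟩ := honto σ hσ
  -- all art 𝔟 are in U
  have key : ∀ 𝔠 : Ideals K, 𝔠 ≠ ⊥ → Cop K 𝔠 𝔣 → Cop K 𝔠 𝔟 → art 𝔠 ∈ U := by
    intro 𝔠
    induction 𝔠 using UniqueFactorizationMonoid.induction_on_prime with
    | h₁ => intro h _; exact absurd rfl h
    | h₂ 𝔠 hb =>
      intro _ _ _
      have hb1 : 𝔠 = 1 := Ideal.isUnit_iff.1 hb |>.trans Ideal.one_eq_top.symm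
      subst hb1
      refine hU _ fun x hx => ?_
      have h2 : Cop K (1 : Ideals K) 𝔣 := isCoprime_one_left
      have h3 := hart.mul 1 1 h2 h2 x hx
      change art (1 * 1) x = _ at h3
      rw [mul_one] at h3
      exact ((art 1).injective h3).symm
    | h₃ 𝔠 𝔮 hb0 h𝔮 ih =>
      intro h2 h3 h3'
      have h4 : Cop K 𝔮 𝔣 := h3.of_mul_left_left
      have h5 : Cop K 𝔠 𝔣 := h3.of_mul_left_right
      have h4' : Cop K 𝔮 𝔟 := h3'.of_mul_left_left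
      have h5' : Cop K 𝔠 𝔟 := h3'.of_mul_left_right
      have h6 : 𝔮.IsPrime := Ideal.isPrime_of_prime h𝔮
      have h7 := hcon 𝔮 ⟨h6, h𝔮.ne_zero⟩ h4 h4'
      have h8 := ih hb0 h5 h5'
      have h9 : (art 𝔮 * art 𝔠)⁻¹ * art (𝔮 * 𝔠) ∈ U := by
        refine hU _ fun x hx => ?_
        have h10 := hart.mul 𝔮 𝔠 h4 h5 x hx
        change (art 𝔮 * art 𝔠)⁻¹ (art (𝔮 * 𝔠) x) = x
        change art (𝔮 * 𝔠) x = _ at h10
        rw [h10]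
        exact (art 𝔮 * art 𝔠).symm_apply_apply x
      have h10 := U.mul_mem (U.mul_mem h7 h8) h9
      rwa [mul_inv_cancel_left] at h10
  have h𝔞0 : 𝔞 ≠ ⊥ := by
    rintro rfl
    apply h𝔣.2
    have := h𝔞
    change IsCoprime (⊥ : Ideals K) 𝔣 at this
    exact isCoprime_zero_left.1 this |> Ideal.isUnit_iff.1
  have h2 := key 𝔞 h𝔞0 h𝔞 h𝔞𝔟
  have h3 : (art 𝔞)⁻¹ * σ ∈ U := by
    refine hU _ fun x hx => ?_
    change (art 𝔞)⁻¹ (σ x) = x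
    rw [← h1 x hx]
    exact (art 𝔞).symm_apply_apply x
  have h4 := U.mul_mem h2 h3
  rw [mul_inv_cancel_left] at h4
  exact hσU h4

lemma isModulus_mul {K : Sub} [NumberField K] {𝔣 𝔮 : Ideals K} (h : IsModulus K 𝔣)
    (hq : IsPrimeIdeal K 𝔮) : IsModulus K (prd K 𝔣 𝔮) := by
  refine ⟨mul_ne_zero h.1 hq.2, fun h1 => h.2 ?_⟩
  have h2 : (𝔣 * 𝔮 : Ideal (𝓞 K)) ≤ 𝔣 := Ideal.mul_le_left
  have h3 : (𝔣 * 𝔮 : Ideal (𝓞 K)) = ⊤ := h1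
  rw [h3] at h2
  exact eq_top_iff.2 h2

end Pool.Agent.J4.H9.SC
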