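import Pool.Agent.J4.H9.SC.Fin
import Pool.Agent.J4.H17.SR.Units

set_option autoImplicit false

/-! The elements for which a difference lies in a submodule form a subgroup. -/

namespace Pool.Agent.J4.H9.SC
open NumberField Module
open Pool.Agent.K4H33.SK (Qbar GQ Fixes IsTorsionOrder IsZeta AbelianRoot fixes_iff)
open Pool.Agent.K4H33.SK.Stmt (Sub Ideals Cop IsArtin nrm cnt prd)
open Pool.Agent.J4.H17.SR (AbelianOver StarkUpTo localDegree NotAbove DegreePrimeTo CyclicSylow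
  TwoExtension IsPrimeIdeal)

variable {G : Type} [CommGroup G]

/-- The elements `g` such that `n` times the difference of `F` and its translate by `g` is in `Q`. -/
def genSub (Q : AddSubgroup (G → ℂ)) (hQ : ∀ u ∈ Q, ∀ g : G, (fun x => u (x * g)) ∈ Q) (F : G → ℂ)
    (n : ℕ) : Subgroup G where
  carrier := {g | n • (fun x => F x - F (x * g)) ∈ Q}
  one_mem' := by
    have : (n • (fun x => F x - F (x * 1)) : G → ℂ) = 0 := by
      funext x
      simp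
    change n • (fun x => F x - F (x * 1)) ∈ Q
    rw [this]
    exact Q.zero_mem
  mul_mem' := by
    intro g h hg hh
    change n • (fun x => F x - F (x * (g * h))) ∈ Q
    have h1 := hQ _ hh g
    have h2 := Q.add_mem hg h1
    have h3 : (n • (fun x => F x - F (x * (g * h))) : G → ℂ) =
        n • (fun x => F x - F (x * g)) + fun x => (n • fun x => F x - F (x * h)) (x * g) := by
      funext x
      rw [Pi.add_apply, Pi.smul_apply, Pi.smul_apply, Pi.smul_apply, nsmul_eq_mul, nsmul_eq_mul,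
        nsmul_eq_mul, ← mul_assoc]
      ring
    rw [h3]
    exact h2
  inv_mem' := by
    intro g hg
    change n • (fun x => F x - F (x * g⁻¹)) ∈ Q
    have h1 := Q.neg_mem (hQ _ hg g⁻¹)
    have h3 : (n • (fun x => F x - F (x * g⁻¹)) : G → ℂ) =
        -fun x => (n • fun x => F x - F (x * g)) (x * g⁻¹) := by
      funext x
      rw [Pi.neg_apply, Pi.smul_apply, Pi.smul_apply, nsmul_eq_mul, nsmul_eq_mul,
        inv_mul_cancel_right]
      ring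
    rw [h3]
    exact h1

theorem all_of_primes {K H : Sub} [NumberField K] {𝔣 𝔟 : Ideals K} (h𝔣 : IsModulus K 𝔣)
    {art : Ideals K → GQ} (hart : IsArtin K H 𝔣 art)
    (honto : ∀ σ : GQ, Fixes K σ → ∃ 𝔞 : Ideals K, Cop K 𝔞 𝔣 ∧ Cop K 𝔞 𝔟 ∧
      ∀ x ∈ H, art 𝔞 x = σ x)
    (hKH : K ≤ H) (π : K.fixingSubgroup →* G) (hπ : ∀ σ : K.fixingSubgroup, Fixes H σ → π σ = 1)
    (hsurj : Function.Surjective π)
    (Q : AddSubgroup (G → ℂ)) (hQ : ∀ u ∈ Q, ∀ g : G, (fun x => u (x * g)) ∈ Q) (F : G → ℂ) (n : ℕ)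
    (h : ∀ 𝔮 : Ideals K, IsPrimeIdeal K 𝔮 → Cop K 𝔮 𝔣 → Cop K 𝔮 𝔟 →
      ∀ g : K.fixingSubgroup, (g : GQ) = art 𝔮 →
      n • (fun x => F x - F (x * (π g)⁻¹)) ∈ Q) (g : G) :
    n • (fun x => F x - F (x * g)) ∈ Q := by
  obtain ⟨γ, rfl⟩ := hsurj g
  set U : Subgroup GQ := ((genSub Q hQ F n).comap π).map K.fixingSubgroup.subtype with hU
  by_contra hcon
  have hmem : ∀ σ : GQ, Fixes H σ → σ ∈ U := by
    intro σ hσ
    have hσK : σ ∈ K.fixingSubgroup := fixes_iff.1 (fun x hx => hσ x (hKH hx))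
    refine ⟨⟨σ, hσK⟩, ?_, rfl⟩
    change π ⟨σ, hσK⟩ ∈ genSub Q hQ F n
    rw [hπ ⟨σ, hσK⟩ hσ]
    exact Subgroup.one_mem _
  have hne : ∃ σ : GQ, Fixes K σ ∧ σ ∉ U := by
    refine ⟨γ, fixes_iff.2 γ.2, ?_⟩
    rintro ⟨γ', h1, h2⟩
    have h3 : γ' = γ := Subtype.ext h2
    subst h3
    exact hcon h1
  obtain ⟨𝔮, hq, hc, hcb, hnot⟩ := exists_prime_notMem h𝔣 hart honto U hmem hne
  apply hnot
  have hqK : art 𝔮 ∈ K.fixingSubgroup := fixes_iff.1 (hart.fix 𝔮 hc)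
  refine ⟨⟨art 𝔮, hqK⟩, ?_, rfl⟩
  change π ⟨art 𝔮, hqK⟩ ∈ genSub Q hQ F n
  have h1 : (π ⟨art 𝔮, hqK⟩)⁻¹ ∈ genSub Q hQ F n := h 𝔮 hq hc hcb ⟨art 𝔮, hqK⟩ rfl
  exact (Subgroup.inv_mem_iff _).1 h1

end Pool.Agent.J4.H9.SC
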