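import Pool.Agent.J4.H9.SC.Gen
import Pool.Agent.J4.H17.SR.Final

set_option autoImplicit false

/-! From the sets `S ∪ {𝔮}`, for all primes `𝔮` outside `S`, and the maximal `2`-extension to `S`. -/

namespace Pool.Agent.J4.H9.SC
open NumberField Module
open Pool.Agent.K4H33.SK (Qbar GQ Fixes IsTorsionOrder IsZeta AbelianRoot fixes_iff)
open Pool.Agent.K4H33.SK.Stmt (Sub Ideals Cop IsArtin nrm cnt prd)
open Pool.Agent.J4.H17.SR (AbelianOver StarkUpTo localDegree NotAbove DegreePrimeTo CyclicSylow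
  TwoExtension IsPrimeIdeal Ok PP PP_of_stark unitFunctions unitFunctions_translate nm crd dG vG cG
  GoodSub exists_odd_part conj_neg descent_odd descent_two one_mem_of_prime dz_eq vz_eq cG_eq
  euler_G sum_nm nm_as_sum)
open Pool.Agent.J4.H99.SRins (exists_quotient exists_torsion)

theorem one_step (ι : Qbar →+* ℂ) (K H : Sub) [NumberField K] [FiniteDimensional ℚ H] (hKH : K ≤ H)
    (hab : AbelianOver K H) (hw : ∃ w : Qbar →+* ℂ, NotAbove ι K w ∧ ∀ x ∈ K, (w x).im = 0)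
    (𝔣 𝔟 : Ideals K) (h𝔣 : IsModulus K 𝔣) (art : Ideals K → GQ) (hart : IsArtin K H 𝔣 art)
    (honto : ∀ σ : GQ, Fixes K σ → ∃ 𝔞 : Ideals K, Cop K 𝔞 𝔣 ∧ Cop K 𝔞 𝔟 ∧
      ∀ x ∈ H, art 𝔞 x = σ x)
    (hcont : ∀ σ : GQ, Fixes K σ → ∃ Z, IsZeta (cnt K H 𝔣 art σ) Z)
    (hA : ∀ 𝔮, IsPrimeIdeal K 𝔮 → Cop K 𝔮 𝔣 → Cop K 𝔮 𝔟 → StarkUpTo 1 ι K H (prd K 𝔣 𝔮) art)
    (hB : ∀ L : Sub, K ≤ L → L ≤ H → TwoExtension K L → ∃ n : ℕ, ¬ 2 ∣ n ∧ StarkUpTo n ι K L 𝔣 art) :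
    StarkUpTo 1 ι K H 𝔣 art := by
  classical
  intro W hW
  obtain ⟨G, _, _, π, hπs, hπ, hJ⟩ := exists_quotient K H hKH hab
  choose rep hrep using hπs
  have hπs : Function.Surjective π := fun g => ⟨rep g, hrep g⟩
  have hok : Ok H art rep 𝔣 :=
    ⟨fun g => hcont (rep g) (fixes_iff.2 (rep g).2), hart.fix, hart.mul⟩
  obtain ⟨c, hc⟩ := conj_neg (H := H) hW.1 hw π hπs
  -- the maximal `2`-extension
  obtain ⟨B, hBodd, hBgood, hBtwo, hBmax⟩ := exists_odd_part G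
  obtain ⟨LB, hKLB, hLBH, hLB⟩ := hJ B
  have htwo : TwoExtension K LB := by
    intro σ hσ
    obtain ⟨k, hk⟩ := hBtwo (π ⟨σ, fixes_iff.1 hσ⟩)
    refine ⟨k, ?_⟩
    have h4 := (hLB (⟨σ, fixes_iff.1 hσ⟩ ^ 2 ^ k)).2 (by rw [map_pow]; exact hk)
    exact h4
  obtain ⟨m, hm, hSB⟩ := hB LB hKLB hLBH htwo
  have hPB : PP H art rep (unitFunctions ι K H W hW.1 π) m B 𝔣 :=
    PP_of_stark hW hLBH hπ hrep hLB hok.fix hok.cont hSB
  set Q := unitFunctions ι K H W hW.1 π with hQ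
  have hQt : ∀ u ∈ Q, ∀ g : G, (fun x => u (x * g)) ∈ Q := by
    intro u hu g
    have := unitFunctions_translate hW.1 hKH hab π hu (rep g)
    rwa [hrep] at this
  -- the functions for `𝔣 * 𝔮`
  have hbot : ∀ (F : G → ℂ) (x : G), nm (⊥ : Subgroup G) F x = F x := by
    intro F x
    unfold nm
    rw [Finset.sum_eq_single x]
    · rw [if_pos (by simp)]
    · intro y _ hy
      rw [if_neg]
      intro h0
      rw [Subgroup.mem_bot] at h0
      exact hy (inv_mul_eq_one.1 h0).symm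
    · intro h0
      exact absurd (Finset.mem_univ x) h0
  have hPq : ∀ 𝔮, IsPrimeIdeal K 𝔮 → Cop K 𝔮 𝔣 → Cop K 𝔮 𝔟 →
      (∀ x, vG H art rep (𝔣 * 𝔮) x = 0) ∧ dG H art rep (𝔣 * 𝔮) ∈ Q := by
    intro 𝔮 hq hqf hqb
    have hok' := hok.next hπ hrep hq.1 hq.2 hqf
    have h1 : PP H art rep (unitFunctions ι K H W hW.1 π) 1 (⊥ : Subgroup G) (𝔣 * 𝔮) :=
      PP_of_stark hW le_rfl hπ hrep (fun σ => by
        rw [Subgroup.mem_bot]
        exact (hπ σ).symm) hok'.fix hok'.cont (hA 𝔮 hq hqf hqb)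
    refine ⟨fun x => ?_, ?_⟩
    · have := h1.1 x
      rwa [hbot] at this
    · have h2 := h1.2
      have h3 : (1 • (fun x => nm (⊥ : Subgroup G) (dG H art rep (𝔣 * 𝔮)) x) : G → ℂ) =
          dG H art rep (𝔣 * 𝔮) := by
        funext x
        rw [Pi.smul_apply, one_smul, hbot]
      rw [h3] at h2
      exact h2
  -- sums over the group
  have hcrdB : ((crd B : ℕ) : ℂ) ≠ 0 := by
    intro h0
    apply hBodd
    rw [Nat.cast_eq_zero] at h0
    rw [h0]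
    exact dvd_zero _
  have hm0 : (m : ℂ) ≠ 0 := by
    intro h0
    apply hm
    rw [Nat.cast_eq_zero] at h0
    rw [h0]
    exact dvd_zero _
  have hv0 : ∑ x, vG H art rep 𝔣 x = 0 := by
    have h2 := sum_nm B (vG H art rep 𝔣)
    rw [Finset.sum_congr rfl fun x _ => hPB.1 x, Finset.sum_const_zero] at h2
    rcases mul_eq_zero.1 h2.symm with h3 | h3
    · exact absurd h3 hcrdB
    · exact h3
  have hd0 : ∑ x, dG H art rep 𝔣 x = 0 := by
    have h2 := hc _ hPB.2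
    have h3 : ∑ x : G, (m • fun x => nm B (dG H art rep 𝔣) x) (x * c) =
        ∑ x : G, (m • fun x => nm B (dG H art rep 𝔣) x) x :=
      Fintype.sum_equiv (Equiv.mulRight c) _ _ fun x => rfl
    rw [Finset.sum_congr rfl fun x _ => h2 x, Finset.sum_neg_distrib] at h3
    have h4 : ∑ x : G, (m • fun x => nm B (dG H art rep 𝔣) x) x =
        (m : ℂ) * (crd B * ∑ x, dG H art rep 𝔣 x) := by
      rw [← sum_nm, Finset.mul_sum]
      refine Finset.sum_congr rfl fun x _ => ?_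
      rw [Pi.smul_apply, nsmul_eq_mul]
    have h5 : (m : ℂ) * (crd B * ∑ x, dG H art rep 𝔣 x) = 0 := by
      rw [h4] at h3
      linear_combination (-1 / 2 : ℂ) * h3
    rcases mul_eq_zero.1 h5 with h6 | h6
    · exact absurd h6 hm0
    · rcases mul_eq_zero.1 h6 with h7 | h7
      · exact absurd h7 hcrdB
      · exact h7
  -- the values at zero vanish
  have hvconst : ∀ g : G, (1 • (fun x => vG H art rep 𝔣 x - vG H art rep 𝔣 (x * g)) : G → ℂ) ∈
      (⊥ : AddSubgroup (G → ℂ)) := by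
    refine all_of_primes h𝔣 hart honto hKH π (fun σ hσ => (hπ σ).2 hσ) hπs ⊥ ?_
      (vG H art rep 𝔣) 1 ?_
    · intro u hu g
      rw [AddSubgroup.mem_bot] at hu ⊢
      funext x
      rw [hu]
      rfl
    · intro 𝔮 hq hqf hqb g hg
      rw [AddSubgroup.mem_bot]
      funext x
      have h1 := (euler_G hπ hrep 𝔣 𝔮 hq.1 hq.2 hqf hok.mul (hok.fix 𝔮 hqf) hok.cont x).2.2
      rw [(hPq 𝔮 hq hqf hqb).1 x] at h1
      have h2 : (⟨art 𝔮, fixes_iff.1 (hok.fix 𝔮 hqf)⟩ : K.fixingSubgroup) = g :=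
        Subtype.ext hg.symm
      rw [h2] at h1
      rw [Pi.smul_apply, one_smul]
      exact h1.symm
  have hv : ∀ x, vG H art rep 𝔣 x = 0 := by
    have h3 : ∀ y, vG H art rep 𝔣 y = vG H art rep 𝔣 1 := by
      intro y
      have h4 := hvconst y
      rw [AddSubgroup.mem_bot] at h4
      have h5 := congrFun h4 1
      rw [Pi.smul_apply, one_smul, one_mul] at h5
      exact (sub_eq_zero.1 h5).symm
    have h4 := hv0
    rw [Finset.sum_congr rfl fun y _ => h3 y, Finset.sum_const, nsmul_eq_mul] at h4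
    have h5 : vG H art rep 𝔣 1 = 0 := by
      rcases mul_eq_zero.1 h4 with h6 | h6
      · exact absurd h6 (by
          rw [Finset.card_univ]
          exact_mod_cast Fintype.card_ne_zero)
      · exact h6
    intro x
    rw [h3 x, h5]
  -- the differences
  have hdiff : ∀ g : G, 1 • (fun x => dG H art rep 𝔣 x - dG H art rep 𝔣 (x * g)) ∈ Q := by
    refine all_of_primes h𝔣 hart honto hKH π (fun σ hσ => (hπ σ).2 hσ) hπs Q hQt
      (dG H art rep 𝔣) 1 ?_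
    intro 𝔮 hq hqf hqb g hg
    have h1 : dG H art rep (𝔣 * 𝔮) =
        1 • (fun x => dG H art rep 𝔣 x - dG H art rep 𝔣 (x * (π g)⁻¹)) := by
      funext x
      have h1 := (euler_G hπ hrep 𝔣 𝔮 hq.1 hq.2 hqf hok.mul (hok.fix 𝔮 hqf) hok.cont x).2.1
      have h2 : (⟨art 𝔮, fixes_iff.1 (hok.fix 𝔮 hqf)⟩ : K.fixingSubgroup) = g :=
        Subtype.ext hg.symm
      rw [h2, hv] at h1
      rw [h1, Pi.smul_apply, one_smul]
      simp
    rw [← h1]
    exact (hPq 𝔮 hq hqf hqb).2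
  have h2 : (2 * 1) • dG H art rep 𝔣 ∈ Q := descent_odd Q c hc _ hd0 1 one_ne_zero hdiff
  have h3 : (1 * m * crd B) • dG H art rep 𝔣 ∈ Q := by
    refine descent_two _ B (dG H art rep 𝔣) 1 m hdiff ?_
    have h4 : (fun x => ∑ b : G, if b ∈ B then dG H art rep 𝔣 (x * b) else 0) =
        fun x => nm B (dG H art rep 𝔣) x := by
      funext x
      rw [nm_as_sum]
    have h5 : (m • fun x => ∑ b : G, if b ∈ B then dG H art rep 𝔣 (x * b) else 0) =
        (m • fun x => nm B (dG H art rep 𝔣) x) := by rw [h4]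
    change (m • fun x => ∑ b : G, if b ∈ B then dG H art rep 𝔣 (x * b) else 0) ∈ _
    rw [h5]
    exact hPB.2
  have hone : (1 : ℤ) ∈ (AddSubgroup.comap (zmultiplesHom (G → ℂ) (dG H art rep 𝔣)) Q) := by
    apply one_mem_of_prime
    intro ℓ hℓ
    by_cases h4 : ℓ = 2
    · refine ⟨((1 * m * crd B : ℕ) : ℤ), ?_, ?_⟩
      · change ((1 * m * crd B : ℕ) : ℤ) • dG H art rep 𝔣 ∈ Q
        rw [natCast_zsmul]
        exact h3
      · subst h4
        intro h5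
        have h6 : 2 ∣ 1 * m * crd B := by exact_mod_cast h5
        rw [one_mul, Nat.prime_two.dvd_mul] at h6
        exact h6.elim hm hBodd
    · refine ⟨((2 * 1 : ℕ) : ℤ), ?_, ?_⟩
      · change ((2 * 1 : ℕ) : ℤ) • dG H art rep 𝔣 ∈ Q
        rw [natCast_zsmul]
        exact h2
      · intro h5
        have h6 : ℓ ∣ 2 * 1 := by exact_mod_cast h5
        rw [mul_one] at h6
        exact h4 ((Nat.prime_dvd_prime_iff_eq hℓ Nat.prime_two).1 h6)
  have hzQ : (dG H art rep 𝔣 : G → ℂ) ∈ Q := by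
    have := AddSubgroup.mem_comap.1 hone
    simpa using this
  obtain ⟨ε, hε, hε2⟩ := hzQ
  choose ZG hZG using fun g => hok.cont g
  refine ⟨fun σ => if hσ : Fixes K σ then ZG (π ⟨σ, fixes_iff.1 hσ⟩) else 0, ε, hε.mem, hε.ne_zero,
    ?_, hε.int, hε.int_inv, hε.abs, hε.root⟩
  intro σ hσ
  have hdif : (if hσ : Fixes K σ then ZG (π ⟨σ, fixes_iff.1 hσ⟩) else 0) =
      ZG (π ⟨σ, fixes_iff.1 hσ⟩) := dif_pos hσ
  change IsZeta (cnt K H 𝔣 art σ) (if hσ : Fixes K σ then ZG (π ⟨σ, fixes_iff.1 hσ⟩) else 0) ∧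
    (if hσ : Fixes K σ then ZG (π ⟨σ, fixes_iff.1 hσ⟩) else 0) 0 = 0 ∧
    _ = _ * deriv (if hσ : Fixes K σ then ZG (π ⟨σ, fixes_iff.1 hσ⟩) else 0) 0
  rw [hdif]
  refine ⟨?_, ?_, ?_⟩
  · have h1 := hZG (π ⟨σ, fixes_iff.1 hσ⟩)
    rw [← cG_eq hπ hrep 𝔣 ⟨σ, fixes_iff.1 hσ⟩] at h1
    exact h1
  · rw [← vz_eq (hZG (π ⟨σ, fixes_iff.1 hσ⟩))]
    exact hv _
  · have h1 := hε2 ⟨σ, fixes_iff.1 hσ⟩
    rw [one_mul, ← dz_eq (hZG (π ⟨σ, fixes_iff.1 hσ⟩))]
    exact h1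

end Pool.Agent.J4.H9.SC
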