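import Pool.Agent.J4.H9.SC.Gen
import Pool.Agent.J4.H17.SR2.Adapt

set_option autoImplicit false

/-! Powers of two: descent from large sets of places without the `2`-extensions. -/

namespace Pool.Agent.J4.H9.SC
open NumberField Module
open Pool.Agent.K4H33.SK (Qbar GQ Fixes IsTorsionOrder IsZeta AbelianRoot fixes_iff isZeta_deriv)
open Pool.Agent.K4H33.SK.Stmt (Sub Ideals Cop IsArtin nrm cnt prd)
open Pool.Agent.J4.H17.SR (AbelianOver localDegree NotAbove
  IsPrimeIdeal Ok PP PP_of_stark PP.next unitFunctions unitFunctions_translate nm crd dG vG cG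
  conj_neg descent_odd dz_eq vz_eq cG_eq nm_next sum_nm nm_as_sum)
open Pool.Agent.J4.H17.SR2 (cont_sub large_ex)
open Pool.Agent.J4.H99.SRins (exists_quotient exists_torsion)

variable {G : Type} [CommGroup G]

theorem all_of_large {K H : Sub} (hKH : K ≤ H) (π : K.fixingSubgroup →* G)
    (hπ : ∀ σ : K.fixingSubgroup, Fixes H σ → π σ = 1) (hsurj : Function.Surjective π)
    (Q : AddSubgroup (G → ℂ)) (hQ : ∀ u ∈ Q, ∀ g : G, (fun x => u (x * g)) ∈ Q) (F : G → ℂ) (n : ℕ)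
    (h : ∀ U : Subgroup GQ, (∀ σ : GQ, Fixes H σ → σ ∈ U) → (∃ σ : GQ, Fixes K σ ∧ σ ∉ U) →
      ∃ g : K.fixingSubgroup, (g : GQ) ∉ U ∧ n • (fun x => F x - F (x * (π g)⁻¹)) ∈ Q) (g : G) :
    n • (fun x => F x - F (x * g)) ∈ Q := by
  obtain ⟨γ, rfl⟩ := hsurj g
  set U : Subgroup GQ := ((genSub Q hQ F n).comap π).map K.fixingSubgroup.subtype with hU
  by_contra hcon
  have hmem : ∀ σ : GQ, Fixes H σ → σ ∈ U := by
    intro σ hσ
    have hσK : σ ∈ K.fixingSubgroup := fixes_iff.1 (fun x hx => hσ x (hKH hx))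
    refine ⟨⟨σ, hσK⟩, ?_, rfl⟩
    change π ⟨σ, hσK⟩ ∈ genSub Q hQ F n
    rw [hπ ⟨σ, hσK⟩ hσ]
    exact Subgroup.one_mem _
  have hne : ∃ σ : GQ, Fixes K σ ∧ σ ∉ U := by
    refine ⟨γ, fixes_iff.2 γ.2, ?_⟩
    rintro ⟨γ', h1, h2⟩
    have h3 : γ' = γ := Subtype.ext h2
    subst h3
    exact hcon h1
  obtain ⟨g, hnot, h1⟩ := h U hmem hne
  apply hnot
  refine ⟨g, ?_, rfl⟩
  change π g ∈ genSub Q hQ F n
  have h2 : (π g)⁻¹ ∈ genSub Q hQ F n := h1
  exact (Subgroup.inv_mem_iff _).1 h2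

theorem pow_two (ι : Qbar →+* ℂ) (K H : Sub) [NumberField K] [FiniteDimensional ℚ H] (hKH : K ≤ H)
    (hab : AbelianOver K H) (hw : ∃ w : Qbar →+* ℂ, NotAbove ι K w ∧ ∀ x ∈ K, (w x).im = 0)
    (𝔣 : Ideals K) (art : Ideals K → GQ) (hart : IsArtin K H 𝔣 art)
    (hD : ∀ Z, IsZeta (cnt K K 𝔣 art 1) Z → Z 0 = 0 ∧ deriv Z 0 = 0) (N n : ℕ) (hn : n ≠ 0)
    (h : Pool.Agent.J4.H17.SR2.LargeSets N n ι K H 𝔣 art) :
    Pool.Agent.J4.H17.SR2.StarkUpTo (2 ^ N * n) ι K H 𝔣 art := by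
  classical
  intro W hW Z hZ
  obtain ⟨G, _, _, π, hπs, hπ, hJ⟩ := exists_quotient K H hKH hab
  choose rep hrep using hπs
  have hπs : Function.Surjective π := fun g => ⟨rep g, hrep g⟩
  have hok : Ok H art rep 𝔣 :=
    ⟨fun g => ⟨_, hZ (rep g) (fixes_iff.2 (rep g).2)⟩, hart.fix, hart.mul⟩
  obtain ⟨c, hc⟩ := conj_neg (H := H) hW.1 hw π hπs
  -- the trivial character
  have hK : Pool.Agent.J4.H17.SR.StarkUpTo 1 ι K K 𝔣 art := by
    intro W' hW'
    obtain ⟨Z₀, hZ₀⟩ := cont_sub hπ hrep hok hKH 1 (fun x _ => rfl)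
    obtain ⟨h0, h1⟩ := hD Z₀ hZ₀
    refine ⟨fun _ => Z₀, 1, one_mem _, one_ne_zero, fun σ hσ => ⟨?_, h0, ?_⟩, isIntegral_one, by
      simpa using isIntegral_one, fun w _ => by simp,
      Pool.Agent.J4.H17.SR.Two.abelianRoot_one K hW'.1⟩
    · have h2 : cnt K K 𝔣 art σ = cnt K K 𝔣 art 1 := by
        funext n
        refine Pool.Agent.K4H33.SK.cnt_congr K K 𝔣 art ?_ n
        intro x hx
        rw [hσ x hx]
        rfl
      rw [h2]
      exact hZ₀
    · rw [h1]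
      simp
  set Q := unitFunctions ι K H W hW.1 π with hQ
  have hQt : ∀ u ∈ Q, ∀ g : G, (fun x => u (x * g)) ∈ Q := by
    intro u hu g
    have := unitFunctions_translate hW.1 hKH hab π hu (rep g)
    rwa [hrep] at this
  have hPtop : PP H art rep Q 1 (⊤ : Subgroup G) 𝔣 :=
    PP_of_stark hW hKH hπ hrep (fun σ => ⟨fun _ => Subgroup.mem_top _, fun _ =>
      fixes_iff.2 σ.2⟩) hok.fix hok.cont hK
  have hbot : ∀ (F : G → ℂ) (x : G), nm (⊥ : Subgroup G) F x = F x := by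
    intro F x
    unfold nm
    rw [Finset.sum_eq_single x]
    · rw [if_pos (by simp)]
    · intro y _ hy
      rw [if_neg]
      intro h0
      rw [Subgroup.mem_bot] at h0
      exact hy (inv_mul_eq_one.1 h0).symm
    · intro h0
      exact absurd (Finset.mem_univ x) h0
  have htop : ∀ (F : G → ℂ) (x : G), nm (⊤ : Subgroup G) F x = ∑ y, F y := by
    intro F x
    unfold nm
    exact Finset.sum_congr rfl fun y _ => if_pos (Subgroup.mem_top _)
  -- the recursion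
  have key : ∀ m : ℕ, ∀ 𝔤 : Ideals K, Ok H art rep 𝔤 → PP H art rep Q 1 (⊤ : Subgroup G) 𝔤 →
      Pool.Agent.J4.H17.SR.LargeSets m n ι K H 𝔤 art →
      (∀ x, vG H art rep 𝔤 x = 0) ∧ (2 ^ m * n) • dG H art rep 𝔤 ∈ Q := by
    intro m
    induction m with
    | zero =>
      intro 𝔤 hok' _ hS
      have h1 : PP H art rep Q n (⊥ : Subgroup G) 𝔤 :=
        PP_of_stark hW le_rfl hπ hrep (fun σ => by
          rw [Subgroup.mem_bot]
          exact (hπ σ).symm) hok'.fix hok'.cont hS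
      refine ⟨fun x => ?_, ?_⟩
      · have := h1.1 x
        rwa [hbot] at this
      · have h2 := h1.2
        have h3 : (n • (fun x => nm (⊥ : Subgroup G) (dG H art rep 𝔤) x) : G → ℂ) =
            (2 ^ 0 * n) • dG H art rep 𝔤 := by
          funext x
          rw [Pi.smul_apply, Pi.smul_apply, hbot, pow_zero, one_mul]
        rw [h3] at h2
        exact h2
    | succ m ih =>
      intro 𝔤 hok' hPt hS
      have hv0 : ∑ x, vG H art rep 𝔤 x = 0 := by
        rw [← htop _ 1]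
        exact hPt.1 1
      have hd0 : ∑ x, dG H art rep 𝔤 x = 0 := by
        have h2 := hc _ hPt.2 1
        rw [Pi.smul_apply, Pi.smul_apply, one_smul, one_smul, htop, htop] at h2
        linear_combination (1 / 2 : ℂ) * h2
      have hstep : ∀ (𝔮 : Ideals K), IsPrimeIdeal K 𝔮 → ∀ hqg : Cop K 𝔮 𝔤,
          Pool.Agent.J4.H17.SR.LargeSets m n ι K H (prd K 𝔤 𝔮) art →
          (∀ x, vG H art rep (𝔤 * 𝔮) x = 0) ∧ (2 ^ m * n) • dG H art rep (𝔤 * 𝔮) ∈ Q :=
        fun 𝔮 hq hqg hS' => ih (𝔤 * 𝔮) (hok'.next hπ hrep hq.1 hq.2 hqg)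
          (PP.next hW.1 hKH hab hπ hrep hok' hq.1 hq.2 hqg hPt) hS'
      have hvconst : ∀ g : G, (1 • (fun x => vG H art rep 𝔤 x - vG H art rep 𝔤 (x * g)) : G → ℂ) ∈
          (⊥ : AddSubgroup (G → ℂ)) := by
        refine all_of_large hKH π (fun σ hσ => (hπ σ).2 hσ) hπs ⊥ ?_ (vG H art rep 𝔤) 1 ?_
        · intro u hu g
          rw [AddSubgroup.mem_bot] at hu ⊢
          funext x
          rw [hu]
          rfl
        · intro U hU hne
          obtain ⟨𝔮, hq, hqg, hnot, hS'⟩ := hS U hU hne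
          refine ⟨⟨art 𝔮, fixes_iff.1 (hok'.fix 𝔮 hqg)⟩, hnot, ?_⟩
          rw [AddSubgroup.mem_bot]
          funext x
          have h1 := (nm_next hπ hrep hok' hq.1 hq.2 hqg (⊥ : Subgroup G) x).1
          rw [hbot, hbot, hbot, (hstep 𝔮 hq hqg hS').1 x] at h1
          rw [Pi.smul_apply, one_smul]
          exact h1.symm
      have hv : ∀ x, vG H art rep 𝔤 x = 0 := by
        have h3 : ∀ y, vG H art rep 𝔤 y = vG H art rep 𝔤 1 := by
          intro y
          have h4 := hvconst y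
          rw [AddSubgroup.mem_bot] at h4
          have h5 := congrFun h4 1
          rw [Pi.smul_apply, one_smul, one_mul] at h5
          exact (sub_eq_zero.1 h5).symm
        have h4 := hv0
        rw [Finset.sum_congr rfl fun y _ => h3 y, Finset.sum_const, nsmul_eq_mul] at h4
        have h5 : vG H art rep 𝔤 1 = 0 := by
          rcases mul_eq_zero.1 h4 with h6 | h6
          · exact absurd h6 (by
              rw [Finset.card_univ]
              exact_mod_cast Fintype.card_ne_zero)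
          · exact h6
        intro x
        rw [h3 x, h5]
      have hdiff : ∀ g : G,
          (2 ^ m * n) • (fun x => dG H art rep 𝔤 x - dG H art rep 𝔤 (x * g)) ∈ Q := by
        refine all_of_large hKH π (fun σ hσ => (hπ σ).2 hσ) hπs Q hQt (dG H art rep 𝔤)
          (2 ^ m * n) ?_
        intro U hU hne
        obtain ⟨𝔮, hq, hqg, hnot, hS'⟩ := hS U hU hne
        refine ⟨⟨art 𝔮, fixes_iff.1 (hok'.fix 𝔮 hqg)⟩, hnot, ?_⟩
        have h1 : (fun x => dG H art rep 𝔤 x - dG H art rep 𝔤 (x *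
            (π ⟨art 𝔮, fixes_iff.1 (hok'.fix 𝔮 hqg)⟩)⁻¹)) = dG H art rep (𝔤 * 𝔮) := by
          funext x
          have h1 := (nm_next hπ hrep hok' hq.1 hq.2 hqg (⊥ : Subgroup G) x).2
          rw [hbot, hbot, hbot, hbot, hv] at h1
          rw [h1]
          simp
        rw [h1]
        exact (hstep 𝔮 hq hqg hS').2
      refine ⟨hv, ?_⟩
      have h2 := descent_odd Q c hc _ hd0 (2 ^ m * n) (mul_ne_zero (pow_ne_zero _ two_ne_zero) hn)
        hdiff
      have h3 : 2 * (2 ^ m * n) = 2 ^ (m + 1) * n := by ring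
      rw [h3] at h2
      exact h2
  obtain ⟨hv, ε, hε, hε2⟩ := key N 𝔣 hok hPtop (large_ex hπ hrep le_rfl n N 𝔣 hok h)
  refine ⟨ε, hε.mem, hε.ne_zero, ?_, hε.int, hε.int_inv, hε.abs, hε.root⟩
  intro σ hσ
  have hZσ : IsZeta (cG H art rep 𝔣 (π ⟨σ, fixes_iff.1 hσ⟩)) (Z σ) := by
    rw [← cG_eq hπ hrep 𝔣 ⟨σ, fixes_iff.1 hσ⟩]
    exact hZ σ hσ
  refine ⟨?_, ?_⟩
  · rw [← vz_eq hZσ]
    exact hv _
  · have h1 := hε2 ⟨σ, fixes_iff.1 hσ⟩
    rw [h1, ← dz_eq hZσ, Pi.smul_apply, nsmul_eq_mul]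
    change -(W : ℂ) * (((2 ^ N * n : ℕ) : ℂ) * dG H art rep 𝔣 (π ⟨σ, fixes_iff.1 hσ⟩)) =
      -(((2 ^ N * n) * W : ℕ) : ℂ) * dG H art rep 𝔣 (π ⟨σ, fixes_iff.1 hσ⟩)
    push_cast
    ring

end Pool.Agent.J4.H9.SC
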