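import Pool.Agent.J4.H9.SC.Gen
import Pool.Agent.J4.H17.SR.Final

set_option autoImplicit false

/-! From the sets `S ∪ {𝔮}`, for all primes `𝔮` outside `S`, to `S`, up to the exponent `2`. -/

namespace Pool.Agent.J4.H9.SC
open NumberField Module
open Pool.Agent.K4H33.SK (Qbar GQ Fixes IsTorsionOrder IsZeta AbelianRoot fixes_iff)
open Pool.Agent.K4H33.SK.Stmt (Sub Ideals Cop IsArtin nrm cnt prd)
open Pool.Agent.J4.H17.SR (AbelianOver StarkUpTo localDegree NotAbove DegreePrimeTo CyclicSylow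
  TwoExtension IsPrimeIdeal Ok PP PP_of_stark unitFunctions unitFunctions_translate nm crd dG vG cG
  GoodSub exists_odd_part conj_neg descent_odd descent_two one_mem_of_prime dz_eq vz_eq cG_eq
  euler_G sum_nm nm_as_sum)
open Pool.Agent.J4.H99.SRins (exists_quotient exists_torsion)

theorem two_step (ι : Qbar →+* ℂ) (K H : Sub) [NumberField K] [FiniteDimensional ℚ H] (hKH : K ≤ H)
    (hab : AbelianOver K H) (hw : ∃ w : Qbar →+* ℂ, NotAbove ι K w ∧ ∀ x ∈ K, (w x).im = 0)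
    (𝔣 𝔟 : Ideals K) (h𝔣 : IsModulus K 𝔣) (art : Ideals K → GQ) (hart : IsArtin K H 𝔣 art)
    (honto : ∀ σ : GQ, Fixes K σ → ∃ 𝔞 : Ideals K, Cop K 𝔞 𝔣 ∧ Cop K 𝔞 𝔟 ∧
      ∀ x ∈ H, art 𝔞 x = σ x)
    (hcont : ∀ σ : GQ, Fixes K σ → ∃ Z, IsZeta (cnt K H 𝔣 art σ) Z) (n : ℕ) (hn : n ≠ 0)
    (hA : ∀ 𝔮, IsPrimeIdeal K 𝔮 → Cop K 𝔮 𝔣 → Cop K 𝔮 𝔟 → StarkUpTo n ι K H (prd K 𝔣 𝔮) art)
    (hB : StarkUpTo 1 ι K K 𝔣 art) :
    StarkUpTo (2 * n) ι K H 𝔣 art := by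
  classical
  intro W hW
  obtain ⟨G, _, _, π, hπs, hπ, hJ⟩ := exists_quotient K H hKH hab
  choose rep hrep using hπs
  have hπs : Function.Surjective π := fun g => ⟨rep g, hrep g⟩
  have hok : Ok H art rep 𝔣 :=
    ⟨fun g => hcont (rep g) (fixes_iff.2 (rep g).2), hart.fix, hart.mul⟩
  obtain ⟨c, hc⟩ := conj_neg (H := H) hW.1 hw π hπs
  have hPB : PP H art rep (unitFunctions ι K H W hW.1 π) 1 (⊤ : Subgroup G) 𝔣 :=
    PP_of_stark hW hKH hπ hrep (fun σ => ⟨fun _ => Subgroup.mem_top _, fun _ =>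
      fixes_iff.2 σ.2⟩) hok.fix hok.cont hB
  set Q := unitFunctions ι K H W hW.1 π with hQ
  have hQt : ∀ u ∈ Q, ∀ g : G, (fun x => u (x * g)) ∈ Q := by
    intro u hu g
    have := unitFunctions_translate hW.1 hKH hab π hu (rep g)
    rwa [hrep] at this
  -- the functions for `𝔣 * 𝔮`
  have hbot : ∀ (F : G → ℂ) (x : G), nm (⊥ : Subgroup G) F x = F x := by
    intro F x
    unfold nm
    rw [Finset.sum_eq_single x]
    · rw [if_pos (by simp)]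
    · intro y _ hy
      rw [if_neg]
      intro h0
      rw [Subgroup.mem_bot] at h0
      exact hy (inv_mul_eq_one.1 h0).symm
    · intro h0
      exact absurd (Finset.mem_univ x) h0
  have hPq : ∀ 𝔮, IsPrimeIdeal K 𝔮 → Cop K 𝔮 𝔣 → Cop K 𝔮 𝔟 →
      (∀ x, vG H art rep (𝔣 * 𝔮) x = 0) ∧ n • dG H art rep (𝔣 * 𝔮) ∈ Q := by
    intro 𝔮 hq hqf hqb
    have hok' := hok.next hπ hrep hq.1 hq.2 hqf
    have h1 : PP H art rep (unitFunctions ι K H W hW.1 π) n (⊥ : Subgroup G) (𝔣 * 𝔮) :=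
      PP_of_stark hW le_rfl hπ hrep (fun σ => by
        rw [Subgroup.mem_bot]
        exact (hπ σ).symm) hok'.fix hok'.cont (hA 𝔮 hq hqf hqb)
    refine ⟨fun x => ?_, ?_⟩
    · have := h1.1 x
      rwa [hbot] at this
    · have h2 := h1.2
      have h3 : (n • (fun x => nm (⊥ : Subgroup G) (dG H art rep (𝔣 * 𝔮)) x) : G → ℂ) =
          n • dG H art rep (𝔣 * 𝔮) := by
        funext x
        rw [Pi.smul_apply, Pi.smul_apply, hbot]
      rw [h3] at h2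
      exact h2
  -- sums over the group
  have htop : ∀ (F : G → ℂ) (x : G), nm (⊤ : Subgroup G) F x = ∑ y, F y := by
    intro F x
    unfold nm
    exact Finset.sum_congr rfl fun y _ => if_pos (Subgroup.mem_top _)
  have hv0 : ∑ x, vG H art rep 𝔣 x = 0 := by
    rw [← htop _ 1]
    exact hPB.1 1
  have hd0 : ∑ x, dG H art rep 𝔣 x = 0 := by
    have h2 := hc _ hPB.2 1
    rw [Pi.smul_apply, Pi.smul_apply, one_smul, one_smul, htop, htop] at h2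
    linear_combination (1 / 2 : ℂ) * h2
  -- the values at zero vanish
  have hvconst : ∀ g : G, (1 • (fun x => vG H art rep 𝔣 x - vG H art rep 𝔣 (x * g)) : G → ℂ) ∈
      (⊥ : AddSubgroup (G → ℂ)) := by
    refine all_of_primes h𝔣 hart honto hKH π (fun σ hσ => (hπ σ).2 hσ) hπs ⊥ ?_
      (vG H art rep 𝔣) 1 ?_
    · intro u hu g
      rw [AddSubgroup.mem_bot] at hu ⊢
      funext x
      rw [hu]
      rfl
    · intro 𝔮 hq hqf hqb g hg
      rw [AddSubgroup.mem_bot]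
      funext x
      have h1 := (euler_G hπ hrep 𝔣 𝔮 hq.1 hq.2 hqf hok.mul (hok.fix 𝔮 hqf) hok.cont x).2.2
      rw [(hPq 𝔮 hq hqf hqb).1 x] at h1
      have h2 : (⟨art 𝔮, fixes_iff.1 (hok.fix 𝔮 hqf)⟩ : K.fixingSubgroup) = g :=
        Subtype.ext hg.symm
      rw [h2] at h1
      rw [Pi.smul_apply, one_smul]
      exact h1.symm
  have hv : ∀ x, vG H art rep 𝔣 x = 0 := by
    have h3 : ∀ y, vG H art rep 𝔣 y = vG H art rep 𝔣 1 := by
      intro y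
      have h4 := hvconst y
      rw [AddSubgroup.mem_bot] at h4
      have h5 := congrFun h4 1
      rw [Pi.smul_apply, one_smul, one_mul] at h5
      exact (sub_eq_zero.1 h5).symm
    have h4 := hv0
    rw [Finset.sum_congr rfl fun y _ => h3 y, Finset.sum_const, nsmul_eq_mul] at h4
    have h5 : vG H art rep 𝔣 1 = 0 := by
      rcases mul_eq_zero.1 h4 with h6 | h6
      · exact absurd h6 (by
          rw [Finset.card_univ]
          exact_mod_cast Fintype.card_ne_zero)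
      · exact h6
    intro x
    rw [h3 x, h5]
  -- the differences
  have hdiff : ∀ g : G, n • (fun x => dG H art rep 𝔣 x - dG H art rep 𝔣 (x * g)) ∈ Q := by
    refine all_of_primes h𝔣 hart honto hKH π (fun σ hσ => (hπ σ).2 hσ) hπs Q hQt
      (dG H art rep 𝔣) n ?_
    intro 𝔮 hq hqf hqb g hg
    have h1 : n • dG H art rep (𝔣 * 𝔮) =
        n • (fun x => dG H art rep 𝔣 x - dG H art rep 𝔣 (x * (π g)⁻¹)) := by
      funext x
      have h1 := (euler_G hπ hrep 𝔣 𝔮 hq.1 hq.2 hqf hok.mul (hok.fix 𝔮 hqf) hok.cont x).2.1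
      have h2 : (⟨art 𝔮, fixes_iff.1 (hok.fix 𝔮 hqf)⟩ : K.fixingSubgroup) = g :=
        Subtype.ext hg.symm
      rw [h2, hv] at h1
      rw [Pi.smul_apply, Pi.smul_apply, h1]
      simp
    rw [← h1]
    exact (hPq 𝔮 hq hqf hqb).2
  have hzQ : (2 * n) • dG H art rep 𝔣 ∈ Q := descent_odd Q c hc _ hd0 n hn hdiff
  obtain ⟨ε, hε, hε2⟩ := hzQ
  choose ZG hZG using fun g => hok.cont g
  refine ⟨fun σ => if hσ : Fixes K σ then ZG (π ⟨σ, fixes_iff.1 hσ⟩) else 0, ε, hε.mem, hε.ne_zero,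
    ?_, hε.int, hε.int_inv, hε.abs, hε.root⟩
  intro σ hσ
  have hdif : (if hσ : Fixes K σ then ZG (π ⟨σ, fixes_iff.1 hσ⟩) else 0) =
      ZG (π ⟨σ, fixes_iff.1 hσ⟩) := dif_pos hσ
  change IsZeta (cnt K H 𝔣 art σ) (if hσ : Fixes K σ then ZG (π ⟨σ, fixes_iff.1 hσ⟩) else 0) ∧
    (if hσ : Fixes K σ then ZG (π ⟨σ, fixes_iff.1 hσ⟩) else 0) 0 = 0 ∧
    _ = _ * deriv (if hσ : Fixes K σ then ZG (π ⟨σ, fixes_iff.1 hσ⟩) else 0) 0
  rw [hdif]
  refine ⟨?_, ?_, ?_⟩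
  · have h1 := hZG (π ⟨σ, fixes_iff.1 hσ⟩)
    rw [← cG_eq hπ hrep 𝔣 ⟨σ, fixes_iff.1 hσ⟩] at h1
    exact h1
  · rw [← vz_eq (hZG (π ⟨σ, fixes_iff.1 hσ⟩))]
    exact hv _
  · have h1 := hε2 ⟨σ, fixes_iff.1 hσ⟩
    rw [h1, ← dz_eq (hZG (π ⟨σ, fixes_iff.1 hσ⟩)), Pi.smul_apply, nsmul_eq_mul]
    change -(W : ℂ) * (((2 * n : ℕ) : ℂ) * dG H art rep 𝔣 (π ⟨σ, fixes_iff.1 hσ⟩)) =
      -(((2 * n) * W : ℕ) : ℂ) * dG H art rep 𝔣 (π ⟨σ, fixes_iff.1 hσ⟩)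
    push_cast
    ring

end Pool.Agent.J4.H9.SC
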