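import Pool.Agent.J4.H9.SC.One
import Pool.Agent.J4.H9.SC.Two
import Pool.Agent.J4.H17.SR.DOWN
import Pool.Agent.J4.H71.CB.Ray

/-! The theorems for the system of all narrow ray class fields of a complex cubic field. -/

set_option autoImplicit false
set_option linter.style.haveILetI false

namespace Pool.Agent.J4.H9.SC
open NumberField Module
open Pool.Agent.K4H33.SK (Qbar GQ Fixes IsTorsionOrder IsZeta AbelianRoot fixes_iff)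
open Pool.Agent.K4H33.SK.Stmt (Sub Ideals Cop IsArtin nrm cnt prd)
open Pool.Agent.J4.H17.SR (AbelianOver StarkUpTo localDegree NotAbove DegreePrimeTo CyclicSylow
  TwoExtension IsPrimeIdeal stark_down LargeSets)

lemma IsComplexCubic.exists_real {ι : Qbar →+* ℂ} {K : Sub} [NumberField K]
    (h : IsComplexCubic ι K) : ∃ w : Qbar →+* ℂ, NotAbove ι K w ∧ ∀ x ∈ K, (w x).im = 0 := by
  obtain ⟨w, hw⟩ := Pool.Agent.J4.H71.CB.exists_real h.deg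
  exact ⟨w, (h.notAbove w).2 hw, hw⟩

lemma ManyPrimes.mul {K : Sub} [NumberField K] {𝔟 : Ideals K} {N : ℕ} {𝔣 𝔮 : Ideals K}
    (h : ManyPrimes K 𝔟 N 𝔣) (hq : IsPrimeIdeal K 𝔮) (hc : Cop K 𝔮 𝔣) (hb : Cop K 𝔮 𝔟) :
    ManyPrimes K 𝔟 (N + 1) (prd K 𝔣 𝔮) := by
  classical
  obtain ⟨s, hs, hs2⟩ := h
  have h1 : (𝔣 * 𝔮 : Ideal (𝓞 K)) ≤ 𝔣 := Ideal.mul_le_left
  have h2 : (𝔣 * 𝔮 : Ideal (𝓞 K)) ≤ 𝔮 := Ideal.mul_le_right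
  have hnot : ∀ 𝔠 : Ideals K, Cop K 𝔮 𝔠 → ¬ 𝔠 ≤ 𝔮 := by
    intro 𝔠 h3 h4
    have h5 : (𝔮 ⊔ 𝔠 : Ideal (𝓞 K)) = ⊤ := Ideal.isCoprime_iff_sup_eq.1 h3
    rw [sup_eq_left.2 h4] at h5
    exact hq.1.ne_top h5
  have h3 : 𝔮 ∉ s := fun h0 => hnot 𝔣 hc (hs2 𝔮 h0).2.2
  refine ⟨insert 𝔮 s, by rw [Finset.card_insert_of_notMem h3, hs], fun 𝔭 h𝔭 => ?_⟩
  rcases Finset.mem_insert.1 h𝔭 with rfl | h4
  · exact ⟨hq, hnot 𝔟 hb, h2⟩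
  · exact ⟨(hs2 𝔭 h4).1, (hs2 𝔭 h4).2.1, h1.trans (hs2 𝔭 h4).2.2⟩

/-- Q1 for `𝔣𝔮` gives Q1 for `K(𝔣)` and the primes dividing `𝔣𝔮`. -/
lemma down_mul {ι : Qbar →+* ℂ} {K : Sub} [NumberField K] {H : Ideals K → Sub}
    {art : Ideals K → GQ} (hH : RayClassFields K H art) {𝔣 𝔮 : Ideals K} (h𝔣 : IsModulus K 𝔣)
    (hq : IsPrimeIdeal K 𝔮) {n : ℕ}
    (h : StarkUpTo n ι K (H (prd K 𝔣 𝔮)) (prd K 𝔣 𝔮) art) :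
    StarkUpTo n ι K (H 𝔣) (prd K 𝔣 𝔮) art := by
  have hm := isModulus_mul h𝔣 hq
  haveI := hH.finite _ hm
  exact stark_down ι K (H 𝔣) (H (prd K 𝔣 𝔮)) (hH.le _ h𝔣)
    (hH.mono _ _ hm h𝔣 Ideal.mul_le_left) (hH.comm _ hm) _ art (hH.symbol _ hm) n h

/-- The Artin symbols of the ideals prime to `𝔣𝔟` give all automorphisms of `K(𝔣)`. -/
lemma RayClassFields.onto_mul {K : Sub} [NumberField K] {H : Ideals K → Sub}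
    {art : Ideals K → GQ} (hH : RayClassFields K H art) {𝔣 𝔟 : Ideals K} (h𝔣 : IsModulus K 𝔣)
    (h𝔟 : 𝔟 ≠ ⊥) (σ : GQ) (hσ : Fixes K σ) :
    ∃ 𝔞 : Ideals K, Cop K 𝔞 𝔣 ∧ Cop K 𝔞 𝔟 ∧ ∀ x ∈ H 𝔣, art 𝔞 x = σ x := by
  have h2 : (𝔣 * 𝔟 : Ideal (𝓞 K)) ≤ 𝔣 := Ideal.mul_le_left
  have hm : IsModulus K (𝔣 * 𝔟) := by
    refine ⟨mul_ne_zero h𝔣.1 h𝔟, fun h1 => h𝔣.2 ?_⟩
    rw [h1] at h2
    exact eq_top_iff.2 h2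
  obtain ⟨𝔞, h3, h4⟩ := hH.onto _ hm σ hσ
  have h5 : IsCoprime 𝔞 (𝔣 * 𝔟) := h3
  exact ⟨𝔞, h5.of_mul_right_left, h5.of_mul_right_right,
    fun x hx => h4 x (hH.mono _ _ hm h𝔣 h2 hx)⟩

/-- The step for one ideal. -/
theorem step (ι : Qbar →+* ℂ) (K : Sub) [NumberField K] (hK : IsComplexCubic ι K)
    (H : Ideals K → Sub) (art : Ideals K → GQ) (hH : RayClassFields K H art)
    (hZ : Continuation K H art) (𝔟 : Ideals K) (h𝔟 : 𝔟 ≠ ⊥) (𝔣 : Ideals K) (h𝔣 : IsModulus K 𝔣)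
    (hA : ∀ 𝔮, IsPrimeIdeal K 𝔮 → Cop K 𝔮 𝔣 → Cop K 𝔮 𝔟 →
      StarkUpTo 1 ι K (H (prd K 𝔣 𝔮)) (prd K 𝔣 𝔮) art)
    (hB : TwoStark ι K (H 𝔣) 𝔣 art) : StarkUpTo 1 ι K (H 𝔣) 𝔣 art := by
  haveI := hH.finite _ h𝔣
  refine one_step ι K (H 𝔣) (hH.le _ h𝔣) (hH.comm _ h𝔣) hK.exists_real 𝔣 𝔟 h𝔣 art
    (hH.symbol _ h𝔣) (hH.onto_mul h𝔣 h𝔟) (hZ 𝔣 h𝔣)
    (fun 𝔮 hq hc hb => down_mul hH h𝔣 hq (hA 𝔮 hq hc hb)) ?_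
  intro L h1 h2 h3
  obtain ⟨n, hn, h4⟩ := hB L h1 h2 h3
  exact ⟨n, hn, (starkCubic_iff hK).1 h4⟩

/-- The case `L = K`. -/
lemma DoubleZero.stark {ι : Qbar →+* ℂ} {K : Sub} [NumberField K] {art : Ideals K → GQ}
    (h : DoubleZero K art) {𝔣 : Ideals K} (h𝔣 : IsModulus K 𝔣) : StarkUpTo 1 ι K K 𝔣 art := by
  intro W hW
  obtain ⟨Z, hZ, h0, h1⟩ := h 𝔣 h𝔣
  refine ⟨fun _ => Z, 1, one_mem _, one_ne_zero, fun σ hσ => ⟨?_, h0, ?_⟩, isIntegral_one, by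
    simpa using isIntegral_one, fun w _ => by simp, Pool.Agent.J4.H17.SR.Two.abelianRoot_one K hW.1⟩
  · have h2 : cnt K K 𝔣 art σ = cnt K K 𝔣 art 1 := by
      funext n
      refine Pool.Agent.K4H33.SK.cnt_congr K K 𝔣 art ?_ n
      intro x hx
      rw [hσ x hx]
      rfl
    rw [h2]
    exact hZ
  · rw [h1]
    simp

/-- The step up to the exponent `2`. -/
theorem step_two (ι : Qbar →+* ℂ) (K : Sub) [NumberField K] (hK : IsComplexCubic ι K)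
    (H : Ideals K → Sub) (art : Ideals K → GQ) (hH : RayClassFields K H art)
    (hZ : Continuation K H art) (hD : DoubleZero K art) (𝔟 : Ideals K) (h𝔟 : 𝔟 ≠ ⊥)
    (𝔣 : Ideals K) (h𝔣 : IsModulus K 𝔣) (n : ℕ) (hn : n ≠ 0)
    (hA : ∀ 𝔮, IsPrimeIdeal K 𝔮 → Cop K 𝔮 𝔣 → Cop K 𝔮 𝔟 →
      StarkUpTo n ι K (H (prd K 𝔣 𝔮)) (prd K 𝔣 𝔮) art) :
    StarkUpTo (2 * n) ι K (H 𝔣) 𝔣 art := by
  haveI := hH.finite _ h𝔣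
  exact two_step ι K (H 𝔣) (hH.le _ h𝔣) (hH.comm _ h𝔣) hK.exists_real 𝔣 𝔟 h𝔣 art
    (hH.symbol _ h𝔣) (hH.onto_mul h𝔣 h𝔟) (hZ 𝔣 h𝔣) n hn
    (fun 𝔮 hq hc hb => down_mul hH h𝔣 hq (hA 𝔮 hq hc hb)) (hD.stark h𝔣)

/-- Q1 for `K(𝔣)` from its primary parts. -/
theorem primary (ι : Qbar →+* ℂ) (K : Sub) [NumberField K] (hK : IsComplexCubic ι K)
    (H : Ideals K → Sub) (art : Ideals K → GQ) (hH : RayClassFields K H art)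
    (hZ : Continuation K H art) (𝔣 : Ideals K) (h𝔣 : IsModulus K 𝔣)
    (h : PrimaryStark ι K (H 𝔣) 𝔣 art) : StarkUpTo 1 ι K (H 𝔣) 𝔣 art := by
  haveI := hH.finite _ h𝔣
  refine Pool.Agent.J4.H17.SR.main ι K (H 𝔣) (hH.le _ h𝔣) (hH.comm _ h𝔣) hK.exists_real 𝔣 art
    (hH.symbol _ h𝔣) (hZ 𝔣 h𝔣) ?_
  intro ℓ hℓ L h1 h2 h3 h4
  obtain ⟨n, hn, h5⟩ := h ℓ hℓ L h1 h2 h3 h4
  exact ⟨n, hn, Or.inl ((starkCubic_iff hK).1 h5)⟩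

/-- Large sets of places: the multiples of `𝔣` with many prime factors. -/
theorem largeSets (ι : Qbar →+* ℂ) (K : Sub) [NumberField K] (hK : IsComplexCubic ι K)
    (H : Ideals K → Sub) (art : Ideals K → GQ) (hH : RayClassFields K H art)
    (hZ : Continuation K H art) (N : ℕ) (𝔟 : Ideals K) (h𝔟 : 𝔟 ≠ ⊥) (𝔣 : Ideals K)
    (h𝔣 : IsModulus K 𝔣)
    (h : ∀ 𝔤, IsModulus K 𝔤 → 𝔤 ≤ 𝔣 → ManyPrimes K 𝔟 N 𝔤 → PrimaryStark ι K (H 𝔤) 𝔤 art)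
    (L : Sub) (hKL : K ≤ L) (hL : L ≤ H 𝔣) :
    ∀ m M : ℕ, M + m = N → ∀ 𝔤, IsModulus K 𝔤 → 𝔤 ≤ 𝔣 → ManyPrimes K 𝔟 M 𝔤 →
      LargeSets m 1 ι K L 𝔤 art := by
  intro m
  induction m with
  | zero =>
    intro M hM 𝔤 h𝔤 hle hmany
    rw [add_zero] at hM
    subst hM
    have h1 := primary ι K hK H art hH hZ 𝔤 h𝔤 (h 𝔤 h𝔤 hle hmany)
    haveI := hH.finite _ h𝔤
    exact stark_down ι K L (H 𝔤) hKL (hL.trans (hH.mono _ _ h𝔤 h𝔣 hle)) (hH.comm _ h𝔤) 𝔤 art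
      (hH.symbol _ h𝔤) 1 h1
  | succ m ih =>
    intro M hM 𝔤 h𝔤 hle hmany U hU hne
    have hLH : L ≤ H 𝔤 := hL.trans (hH.mono _ _ h𝔤 h𝔣 hle)
    obtain ⟨𝔮, hq, hc, hb, hnot⟩ := exists_prime_notMem h𝔤 (hH.symbol _ h𝔤)
      (fun σ hσ => hH.onto_mul h𝔤 h𝔟 σ hσ) U (fun σ hσ => hU σ fun x hx => hσ x (hLH hx)) hne
    exact ⟨𝔮, hq, hc, hnot, ih (M + 1) (by omega) _ (isModulus_mul h𝔤 hq)
      (le_trans Ideal.mul_le_left hle) (hmany.mul hq hc hb)⟩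

/-- The local theorem. -/
theorem local_main (ι : Qbar →+* ℂ) (K : Sub) [NumberField K] (hK : IsComplexCubic ι K)
    (H : Ideals K → Sub) (art : Ideals K → GQ) (hH : RayClassFields K H art)
    (hZ : Continuation K H art) (N : ℕ) (𝔟 : Ideals K) (h𝔟 : 𝔟 ≠ ⊥) (𝔣 : Ideals K)
    (h𝔣 : IsModulus K 𝔣)
    (h : ∀ 𝔤, IsModulus K 𝔤 → 𝔤 ≤ 𝔣 → ManyPrimes K 𝔟 N 𝔤 → PrimaryStark ι K (H 𝔤) 𝔤 art)
    (h2 : TwoStark ι K (H 𝔣) 𝔣 art) : StarkCubicUpTo 1 ι K (H 𝔣) 𝔣 art := by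
  haveI := hH.finite _ h𝔣
  rw [starkCubic_iff hK]
  refine Pool.Agent.J4.H17.SR.main ι K (H 𝔣) (hH.le _ h𝔣) (hH.comm _ h𝔣) hK.exists_real 𝔣 art
    (hH.symbol _ h𝔣) (hZ 𝔣 h𝔣) ?_
  intro ℓ hℓ L h3 h4 _ _
  by_cases h5 : ℓ = 2 ∧ TwoExtension K L
  · obtain ⟨n, hn, h6⟩ := h2 L h3 h4 h5.2
    exact ⟨n, by rw [h5.1]; exact hn, Or.inl ((starkCubic_iff hK).1 h6)⟩
  · refine ⟨1, hℓ.one_lt.ne' ∘ Nat.dvd_one.1, Or.inr ⟨h5, N, ?_⟩⟩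
    exact largeSets ι K hK H art hH hZ N 𝔟 h𝔟 𝔣 h𝔣 h L h3 h4 N 0 (by omega) 𝔣 h𝔣 le_rfl
      ⟨∅, rfl, fun 𝔭 h => absurd h (Finset.notMem_empty _)⟩

/-- Without the `2`-extensions, up to a power of `2`. -/
theorem local_two (ι : Qbar →+* ℂ) (K : Sub) [NumberField K] (hK : IsComplexCubic ι K)
    (H : Ideals K → Sub) (art : Ideals K → GQ) (hH : RayClassFields K H art)
    (hZ : Continuation K H art) (hD : DoubleZero K art) (N : ℕ) (𝔟 : Ideals K) (h𝔟 : 𝔟 ≠ ⊥)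
    (𝔣 : Ideals K) (h𝔣 : IsModulus K 𝔣)
    (h : ∀ 𝔤, IsModulus K 𝔤 → 𝔤 ≤ 𝔣 → ManyPrimes K 𝔟 N 𝔤 → PrimaryStark ι K (H 𝔤) 𝔤 art) :
    StarkCubicUpTo (2 ^ N) ι K (H 𝔣) 𝔣 art := by
  have key : ∀ m M : ℕ, M + m = N → ∀ 𝔤, IsModulus K 𝔤 → 𝔤 ≤ 𝔣 → ManyPrimes K 𝔟 M 𝔤 →
      StarkUpTo (2 ^ m) ι K (H 𝔤) 𝔤 art := by
    intro m
    induction m with
    | zero =>
      intro M hM 𝔤 h𝔤 hle hmany
      rw [add_zero] at hM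
      subst hM
      exact primary ι K hK H art hH hZ 𝔤 h𝔤 (h 𝔤 h𝔤 hle hmany)
    | succ m ih =>
      intro M hM 𝔤 h𝔤 hle hmany
      rw [pow_succ, mul_comm]
      exact step_two ι K hK H art hH hZ hD 𝔟 h𝔟 𝔤 h𝔤 (2 ^ m) (pow_ne_zero _ two_ne_zero)
        (fun 𝔮 hq hc hb => ih (M + 1) (by omega) _ (isModulus_mul h𝔤 hq)
          (le_trans Ideal.mul_le_left hle) (hmany.mul hq hc hb))
  rw [starkCubic_iff hK]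
  exact key N 0 (by omega) 𝔣 h𝔣 le_rfl ⟨∅, rfl, fun 𝔭 h => absurd h (Finset.notMem_empty _)⟩

/-- Tate: the conjecture for `K(𝔣)` implies it for subfields. -/
theorem down_all (ι : Qbar →+* ℂ) (K : Sub) [NumberField K] (hK : IsComplexCubic ι K)
    (H : Ideals K → Sub) (art : Ideals K → GQ) (hH : RayClassFields K H art) (𝔣 : Ideals K)
    (h𝔣 : IsModulus K 𝔣) (h : StarkCubicUpTo 1 ι K (H 𝔣) 𝔣 art) (L : Sub) (h1 : K ≤ L)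
    (h2 : L ≤ H 𝔣) : StarkCubicUpTo 1 ι K L 𝔣 art := by
  haveI := hH.finite _ h𝔣
  rw [starkCubic_iff hK]
  exact stark_down ι K L (H 𝔣) h1 h2 (hH.comm _ h𝔣) 𝔣 art (hH.symbol _ h𝔣) 1
    ((starkCubic_iff hK).1 h)

theorem primary_of_stark (ι : Qbar →+* ℂ) (K : Sub) [NumberField K] (hK : IsComplexCubic ι K)
    (H : Ideals K → Sub) (art : Ideals K → GQ) (hH : RayClassFields K H art) (𝔣 : Ideals K)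
    (h𝔣 : IsModulus K 𝔣) (h : StarkCubicUpTo 1 ι K (H 𝔣) 𝔣 art) :
    PrimaryStark ι K (H 𝔣) 𝔣 art :=
  fun _ hℓ L h1 h2 _ _ => ⟨1, hℓ.one_lt.ne' ∘ Nat.dvd_one.1,
    down_all ι K hK H art hH 𝔣 h𝔣 h L h1 h2⟩

theorem twoStark_of_stark (ι : Qbar →+* ℂ) (K : Sub) [NumberField K] (hK : IsComplexCubic ι K)
    (H : Ideals K → Sub) (art : Ideals K → GQ) (hH : RayClassFields K H art) (𝔣 : Ideals K)
    (h𝔣 : IsModulus K 𝔣) (h : StarkCubicUpTo 1 ι K (H 𝔣) 𝔣 art) : TwoStark ι K (H 𝔣) 𝔣 art :=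
  fun L h1 h2 _ => ⟨1, by norm_num, down_all ι K hK H art hH 𝔣 h𝔣 h L h1 h2⟩

/-- The equivalence for all moduli. -/
theorem main (ι : Qbar →+* ℂ) (K : Sub) [NumberField K] (hK : IsComplexCubic ι K)
    (H : Ideals K → Sub) (art : Ideals K → GQ) (hH : RayClassFields K H art)
    (hZ : Continuation K H art) (N : ℕ) (𝔟 : Ideals K) (h𝔟 : 𝔟 ≠ ⊥) :
    (∀ 𝔣, IsModulus K 𝔣 → StarkCubicUpTo 1 ι K (H 𝔣) 𝔣 art) ↔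
      (∀ 𝔣, IsModulus K 𝔣 → ManyPrimes K 𝔟 N 𝔣 → PrimaryStark ι K (H 𝔣) 𝔣 art) ∧
      ∀ 𝔣, IsModulus K 𝔣 → ¬ ManyPrimes K 𝔟 N 𝔣 → TwoStark ι K (H 𝔣) 𝔣 art := by
  constructor
  · intro h
    exact ⟨fun 𝔣 h𝔣 _ => primary_of_stark ι K hK H art hH 𝔣 h𝔣 (h 𝔣 h𝔣),
      fun 𝔣 h𝔣 _ => twoStark_of_stark ι K hK H art hH 𝔣 h𝔣 (h 𝔣 h𝔣)⟩
  · rintro ⟨h1, h2⟩ 𝔣 h𝔣
    by_cases hN : ManyPrimes K 𝔟 N 𝔣
    · rw [starkCubic_iff hK]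
      exact primary ι K hK H art hH hZ 𝔣 h𝔣 (h1 𝔣 h𝔣 hN)
    · exact local_main ι K hK H art hH hZ N 𝔟 h𝔟 𝔣 h𝔣 (fun 𝔤 h𝔤 _ h => h1 𝔤 h𝔤 h) (h2 𝔣 h𝔣 hN)

end Pool.Agent.J4.H9.SC
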