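import Pool.Agent.J4.H9.SC.Pow
import Pool.Agent.J4.H17.SR.TOR2

set_option autoImplicit false

/-! The double zero from the conjecture for the trivial extension. -/

namespace Pool.Agent.J4.H9.SC
open NumberField Module
open Pool.Agent.K4H33.SK (Qbar GQ Fixes IsTorsionOrder IsZeta AbelianRoot)
open Pool.Agent.K4H33.SK.Stmt (Sub Ideals Cop IsArtin nrm cnt prd)
open Pool.Agent.J4.H17.SR (AbelianOver NotAbove)

theorem double_zero (ι : Qbar →+* ℂ) (K : Sub) [NumberField K]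
    (hw : ∃ w : Qbar →+* ℂ, NotAbove ι K w ∧ ∀ x ∈ K, (w x).im = 0)
    (𝔣 : Ideals K) (art : Ideals K → GQ) (m : ℕ) (hm : m ≠ 0)
    (h0 : Pool.Agent.J4.H17.SR2.StarkUpTo m ι K K 𝔣 art) (Z : ℂ → ℂ)
    (hZ : IsZeta (cnt K K 𝔣 art 1) Z) : Z 0 = 0 ∧ deriv Z 0 = 0 := by
  obtain ⟨W, hW⟩ := Pool.Agent.J4.H17.SR.exists_torsionOrder K
  have hcnt : ∀ σ : GQ, Fixes K σ → IsZeta (cnt K K 𝔣 art σ) Z := by
    intro σ hσ
    have h2 : cnt K K 𝔣 art σ = cnt K K 𝔣 art 1 := by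
      funext n
      refine Pool.Agent.K4H33.SK.cnt_congr K K 𝔣 art ?_ n
      intro x hx
      rw [hσ x hx]
      rfl
    rw [h2]
    exact hZ
  obtain ⟨ε, hεK, _, h, _, _, habs, _⟩ := h0 W hW (fun _ => Z) hcnt
  obtain ⟨h1, h2⟩ := h 1 (fun x _ => rfl)
  refine ⟨h1, ?_⟩
  obtain ⟨w, hwn, hwr⟩ := hw
  have h3 : ‖w ε‖ = 1 := habs w hwn
  have h4 : (w ε).im = 0 := hwr ε hεK
  have h5 : (w ε) ^ 2 = 1 := by
    have h6 : (((w ε).re : ℝ) : ℂ) = w ε := Complex.ext (by simp) (by simp [h4])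
    rw [← h6] at h3 ⊢
    rw [Complex.norm_real, Real.norm_eq_abs] at h3
    have h7 : ((w ε).re) ^ 2 = 1 := by
      rw [← sq_abs, h3, one_pow]
    exact_mod_cast h7
  have h8 : ε ^ 2 = 1 := w.injective (by rw [map_pow, h5, map_one])
  have h9 : ‖ι ε‖ = 1 := by
    have h10 : ‖ι ε‖ ^ 2 = 1 := by
      rw [← norm_pow, ← map_pow, h8, map_one, norm_one]
    nlinarith [norm_nonneg (ι ε)]
  have h11 : ((1 : GQ) ε) = ε := rfl
  rw [h11, h9, Real.log_one, mul_zero, Complex.ofReal_zero] at h2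
  have h12 : ((m * W : ℕ) : ℂ) ≠ 0 := by
    exact_mod_cast mul_ne_zero hm hW.1.ne'
  have h13 := h2.symm
  rw [mul_eq_zero, neg_eq_zero] at h13
  exact h13.resolve_left h12

end Pool.Agent.J4.H9.SC
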